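import Pool.Agent.Work.MP_4c5ddc_co.CO.Fin

/-!
A near-quadratic bound for the combinatorial complexity of the union of fat polytopes in
three-dimensional space whose facets have a bounded number of orientations.
-/

open UF

namespace Pool.Agent.Results.MP_4c5ddc_co.COrientedFatPolytopes

/-- For every `α` and every finite set `N` of nonzero vectors there is `C` such that the union of
any `n` `α`-fat polytopes with facet normals in `N` in general position in space has at most
`C * n ^ 2 * (1 + log n)` vertices, edges and faces in total. -/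
theorem result (α : ℝ) (N : Finset E3) (hN : ∀ ν ∈ N, ν ≠ 0) : ∃ C : ℝ, ∀ (n : ℕ)
    (h : Fin n → E3 → ℝ) (K : Fin n → Set E3), (∀ i, K i = {x | ∀ ν ∈ N, inner ℝ ν x ≤ h i ν}) →
    (∀ i, Fat α (K i)) → GenPos K → (∀ x, (idx K x).ncard ≤ 3) →
      (vertices K).Finite ∧ (comps (stratum K 2)).Finite ∧ (comps (stratum K 1)).Finite ∧
        (complexity K : ℝ) ≤ C * ((n : ℝ) ^ 2 * (1 + Real.log n)) :=
  CO.final α N hN

end Pool.Agent.Results.MP_4c5ddc_co.COrientedFatPolytopes
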