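import Pool.Agent.Work.MP_4c5ddc_co.FP.Final

/-!
The conjectured near-quadratic bound for the combinatorial complexity of the union of fat objects
in three-dimensional space, for all fat convex polytopes with a bounded number of facets.
-/

open UF

namespace Pool.Agent.Results.MP_4c5ddc_co.FatPolytopes

/-- For all `α`, `s` and `ε > 0` there is `C` such that the union of any `n` `α`-fat convex
polytopes in space in general position, each of them the intersection of at most `s` half-spaces,
has at most `C * n ^ (2 + ε)` vertices, edges and faces in total. -/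
theorem result (α ε : ℝ) (s : ℕ) (hε : 0 < ε) : ∃ C : ℝ, ∀ (n : ℕ) (K : Fin n → Set E3),
    (∀ i, ∃ (ν : Fin s → E3) (h : Fin s → ℝ), K i = {x | ∀ l, inner ℝ (ν l) x ≤ h l}) →
    (∀ i, Fat α (K i)) → GenPos K → (∀ x, (idx K x).ncard ≤ 3) →
      (vertices K).Finite ∧ (comps (stratum K 2)).Finite ∧ (comps (stratum K 1)).Finite ∧
        (complexity K : ℝ) ≤ C * (n : ℝ) ^ (2 + ε) :=
  FP.final α ε s hε

end Pool.Agent.Results.MP_4c5ddc_co.FatPolytopes
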