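import Pool.Agent.Work.MP_4c5ddc_co.Final2

/-!
A subcubic bound for the combinatorial complexity of the union of fat convex objects in
three-dimensional space.
-/

open UF

namespace Pool.Agent.Results.MP_4c5ddc_co.SubcubicComplexity

/-- For all `α` and `s` there are `C` and `δ > 0` such that the union of any `n` compact convex
`α`-fat semialgebraic objects of description complexity `s` in general position in space has at most
`C * n ^ (3 - δ)` vertices, edges and faces in total. -/
theorem result (α : ℝ) (s : ℕ) : ∃ C δ : ℝ, 0 < δ ∧ ∀ (n : ℕ) (K : Fin n → Set E3),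
    (∀ i, Obj α s (K i)) → GenPos K → (∀ x, (idx K x).ncard ≤ 3) →
      (vertices K).Finite ∧ (comps (stratum K 2)).Finite ∧ (comps (stratum K 1)).Finite ∧
        (complexity K : ℝ) ≤ C * (n : ℝ) ^ (3 - δ) :=
  final2 α s

end Pool.Agent.Results.MP_4c5ddc_co.SubcubicComplexity
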